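import Mathlib

set_option autoImplicit false

namespace Pool.Agent.Results.MP_68514f_co.ParityObstruction

/-- A mixed graph: undirected edges (a simple graph) and arcs (a digraph) on one vertex set. -/
structure MixedGraph (V : Type) where
  /-- the undirected edges -/
  edge : SimpleGraph V
  /-- the arcs: `arc u v` says that there is an arc from `u` to `v` -/
  arc : V → V → Prop

/-- Totally `(r, z)`-regular: every vertex is on `r` edges, `z` arcs leave it and `z` arcs
enter it. -/
def MixedGraph.IsTotallyRegular {V : Type} (G : MixedGraph V) (r z : ℕ) : Prop :=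
  ∀ v, (G.edge.neighborSet v).ncard = r ∧ {w | G.arc v w}.ncard = z ∧ {w | G.arc w v}.ncard = z

/-- `v` can be reached from `u` by a walk of length at most `n`. -/
def MixedGraph.Within {V : Type} (G : MixedGraph V) : ℕ → V → V → Prop
  | 0, u, v => u = v
  | n + 1, u, v => G.Within n u v ∨ ∃ w, G.Within n u w ∧ (G.edge.Adj w v ∨ G.arc w v)

/-- The numbers `N_i`. -/
def mooreN (r z : ℕ) : ℕ → ℕ
  | 0 => 1
  | 1 => r + z
  | i + 2 => (r + z - 1) * mooreN r z (i + 1) + z * mooreN r z i

/-- The mixed Moore bound `M(r, z, k)`. -/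
def mooreM (r z k : ℕ) : ℕ := ∑ i ∈ Finset.range (k + 1), mooreN r z i

/-- `(r, z, k)`-mixed radial Moore graphs: totally `(r, z)`-regular, of order `M(r, z, k)`, of
radius `k` and diameter `k + 1` (in terms of out-eccentricities). -/
def MixedGraph.IsRadialMoore {V : Type} [Fintype V] (G : MixedGraph V) (r z k : ℕ) : Prop :=
  G.IsTotallyRegular r z ∧ Fintype.card V = mooreM r z k ∧
  (∃ u, ∀ v, G.Within k u v) ∧ (∀ u, ∃ v, ∀ m < k, ¬ G.Within m u v) ∧
  (∀ u v, G.Within (k + 1) u v) ∧ (∃ u v, ¬ G.Within k u v)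

lemma mooreN_mod (r z : ℕ) (hr : Odd r) (hz : Odd z) (m : ℕ) :
    mooreN r z (3 * m) % 2 = 1 ∧ mooreN r z (3 * m + 1) % 2 = 0 ∧
      mooreN r z (3 * m + 2) % 2 = 1 := by
  have hrz : (r + z - 1) % 2 = 1 := by
    obtain ⟨a, ha⟩ := hr
    obtain ⟨b, hb⟩ := hz
    omega
  have hz2 : z % 2 = 1 := Nat.odd_iff.mp hz
  have step : ∀ i, mooreN r z (i + 2) % 2 = (mooreN r z (i + 1) + mooreN r z i) % 2 := by
    intro i
    change ((r + z - 1) * mooreN r z (i + 1) + z * mooreN r z i) % 2 = _
    rw [Nat.add_mod, Nat.mul_mod, hrz, Nat.mul_mod z, hz2, one_mul, one_mul, Nat.mod_mod,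
      Nat.mod_mod, ← Nat.add_mod]
  induction m with
  | zero =>
    have h0 : mooreN r z 0 = 1 := rfl
    have h1 : mooreN r z 1 = r + z := rfl
    have h2 := step 0
    simp only [Nat.mul_zero, Nat.zero_add] at h2 ⊢
    obtain ⟨a, ha⟩ := hr
    obtain ⟨b, hb⟩ := hz
    rw [h0, h1] at *
    refine ⟨by norm_num, by omega, by omega⟩
  | succ m ih =>
    obtain ⟨i0, i1, i2⟩ := ih
    have e3 := step (3 * m + 1)
    have e4 := step (3 * m + 2)
    have e5 := step (3 * m + 3)
    have a0 : 3 * (m + 1) = 3 * m + 3 := by ring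
    rw [a0]
    simp only [add_assoc] at e3 e4 e5 ⊢
    norm_num at e3 e4 e5 ⊢
    omega

lemma mooreM_odd (r z k : ℕ) (hr : Odd r) (hz : Odd z) (hk : k % 3 ≠ 2) :
    mooreM r z k % 2 = 1 := by
  have key : ∀ m, mooreM r z (3 * m) % 2 = 1 ∧ mooreM r z (3 * m + 1) % 2 = 1 ∧
      mooreM r z (3 * m + 2) % 2 = 0 := by
    intro m
    induction m with
    | zero =>
      obtain ⟨h0, h1, h2⟩ := mooreN_mod r z hr hz 0
      simp only [Nat.mul_zero, Nat.zero_add] at h0 h1 h2 ⊢
      unfold mooreM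
      simp only [Finset.sum_range_succ, Finset.sum_range_zero, Nat.zero_add]
      omega
    | succ m ih =>
      obtain ⟨h0, h1, h2⟩ := mooreN_mod r z hr hz (m + 1)
      obtain ⟨i0, i1, i2⟩ := ih
      have a0 : 3 * (m + 1) = 3 * m + 3 := by ring
      rw [a0] at h0 h1 h2 ⊢
      have e3 : mooreM r z (3 * m + 3) = mooreM r z (3 * m + 2) + mooreN r z (3 * m + 3) :=
        Finset.sum_range_succ (mooreN r z) (3 * m + 3)
      have e4 : mooreM r z (3 * m + 3 + 1) = mooreM r z (3 * m + 3) + mooreN r z (3 * m + 3 + 1) :=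
        Finset.sum_range_succ (mooreN r z) (3 * m + 3 + 1)
      have e5 : mooreM r z (3 * m + 3 + 2) =
          mooreM r z (3 * m + 3 + 1) + mooreN r z (3 * m + 3 + 2) :=
        Finset.sum_range_succ (mooreN r z) (3 * m + 3 + 2)
      omega
  obtain ⟨h0, h1, h2⟩ := key (k / 3)
  have hk3 : k = 3 * (k / 3) ∨ k = 3 * (k / 3) + 1 := by omega
  rcases hk3 with h | h
  · rw [h]; exact h0
  · rw [h]; exact h1

/-- If `r` and `z` are odd and `k` is not congruent to `2` modulo `3`, then there is no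
`(r, z, k)`-mixed radial Moore graph. -/
theorem result (r z k : ℕ) (hr : Odd r) (hz : Odd z) (hk : k % 3 ≠ 2) :
    ¬ ∃ (V : Type) (_ : Fintype V) (G : MixedGraph V), G.IsRadialMoore r z k := by
  rintro ⟨V, _, G, hreg, hcard, -⟩
  classical
  have hodd := mooreM_odd r z k hr hz hk
  rw [← hcard] at hodd
  have h1 := SimpleGraph.sum_degrees_eq_twice_card_edges G.edge
  have h2 : ∀ v, G.edge.degree v = r := by
    intro v
    rw [← (hreg v).1, ← SimpleGraph.card_neighborSet_eq_degree, Set.ncard_eq_toFinset_card',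
      Set.toFinset_card]
  simp only [h2, Finset.sum_const, Finset.card_univ, smul_eq_mul] at h1
  have h3 : (Fintype.card V * r) % 2 = 1 := by
    rw [Nat.mul_mod, hodd, Nat.odd_iff.mp hr]
  omega

end Pool.Agent.Results.MP_68514f_co.ParityObstruction
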